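import Pool.Agent.Helper29.T1.Wt

/-!
# MP_e2a5d3_al : Hall criterion for edge multisets of gapfree graphs (from Tutte's theorem)
-/

set_option linter.unusedSectionVars false

namespace Pool.Agent.LQ.T1

open Finsupp

variable {V : Type*} [Fintype V] [DecidableEq V]

/-- copies of the vertices -/
abbrev Cpy (m : V →₀ ℕ) := Σ v : V, Fin (m v)

/-- blow-up of the graph -/
def bl (G : SimpleGraph V) (m : V →₀ ℕ) : SimpleGraph (Cpy m) := G.comap Sigma.fst

theorem bl_adj {G : SimpleGraph V} {m : V →₀ ℕ} {x y : Cpy m} :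
    (bl G m).Adj x y ↔ G.Adj x.1 y.1 := Iff.rfl

theorem mem_P_of_invol {W : Type*} [DecidableEq W] (G : SimpleGraph V) (φ : W → V) (f : W → W) :
    ∀ (n : ℕ) (S : Finset W), S.card = n →
      (∀ x ∈ S, f x ∈ S ∧ f (f x) = x ∧ G.Adj (φ x) (φ (f x))) →
      ∃ q, ∑ x ∈ S, δ (φ x) ∈ P G q := by
  intro n
  induction n using Nat.strong_induction_on with
  | _ n ih =>
    intro S hS hf
    rcases S.eq_empty_or_nonempty with rfl | ⟨x, hx⟩
    · exact ⟨0, by simp [P_zero]⟩
    · obtain ⟨h1, h2, h3⟩ := hf x hx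
      have hne : f x ≠ x := fun h => by
        rw [h] at h3
        exact G.loopless.irrefl _ h3
      have hfx : f x ∈ S.erase x := Finset.mem_erase.2 ⟨hne, h1⟩
      obtain ⟨q, hq⟩ := ih ((S.erase x).erase (f x)).card (by
        rw [Finset.card_erase_of_mem hfx, Finset.card_erase_of_mem hx]
        have := Finset.card_pos.2 ⟨x, hx⟩
        omega) _ rfl (by
        intro y hy
        rw [Finset.mem_erase, Finset.mem_erase] at hy
        obtain ⟨k1, k2, k3⟩ := hf y hy.2.2
        refine ⟨?_, k2, k3⟩
        rw [Finset.mem_erase, Finset.mem_erase]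
        refine ⟨fun h => ?_, fun h => ?_, k1⟩
        · apply hy.2.1
          rw [← k2, h, h2]
        · apply hy.1
          rw [← k2, h])
      refine ⟨q + 1, _, hq, φ x, φ (f x), h3, ?_⟩
      rw [← Finset.sum_erase_add _ _ hx, ← Finset.sum_erase_add _ _ hfx]
      rw [show ev (φ x) (φ (f x)) = δ (φ x) + δ (φ (f x)) from rfl]
      abel

theorem sum_copies (m : V →₀ ℕ) : ∑ x : Cpy m, δ x.1 = m := by
  ext z
  rw [Finsupp.finsetSum_apply, Fintype.sum_sigma]
  simp only [Finset.sum_const, Finset.card_univ, Fintype.card_fin, smul_eq_mul, δ, single_apply]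
  rw [Finset.sum_eq_single z]
  · simp
  · intro b _ hb
    rw [if_neg hb, mul_zero]
  · intro h
    exact absurd (Finset.mem_univ z) h

theorem card_copies (m : V →₀ ℕ) (S : Finset V) :
    (Finset.univ.filter (fun x : Cpy m => x.1 ∈ S)).card = ws m S := by
  rw [Finset.card_filter, Fintype.sum_sigma]
  have h : ∀ v, (∑ _i : Fin (m v), if v ∈ S then 1 else 0) = if v ∈ S then m v else 0 := by
    intro v
    split_ifs <;> simp
  calc ∑ v, ∑ _i : Fin (m v), (if v ∈ S then 1 else 0) = ∑ v, if v ∈ S then m v else 0 :=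
        Finset.sum_congr rfl (fun v _ => h v)
    _ = ws m S := by
        unfold ws
        rw [Finset.sum_ite_mem, Finset.univ_inter]

theorem hall_hard {G : SimpleGraph V} (hG : GF G) {m : V →₀ ℕ} {Q : ℕ} (hd : m.degree = 2 * Q)
    (h : ∀ T, Ind G T → ws m T ≤ ws m (nb G T)) : m ∈ P G Q := by
  classical
  by_cases hM : ∃ M : (bl G m).Subgraph, M.IsPerfectMatching
  · obtain ⟨M, hM⟩ := hM
    rw [SimpleGraph.Subgraph.isPerfectMatching_iff] at hM
    choose f hf1 hf2 using hM
    obtain ⟨q, hq⟩ := mem_P_of_invol G (fun x : Cpy m => x.1) f _ Finset.univ rfl (by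
      intro x _
      refine ⟨Finset.mem_univ _, ?_, ?_⟩
      · exact (hf2 (f x) x (hf1 x).symm).symm
      · exact (hf1 x).adj_sub)
    rw [sum_copies] at hq
    have := degree_of_mem_P hq
    have hqQ : q = Q := by omega
    rwa [← hqQ]
  · exfalso
    rw [SimpleGraph.tutte] at hM
    push Not at hM
    obtain ⟨u, hu⟩ := hM
    unfold SimpleGraph.IsTutteViolator at hu
    set H' := ((⊤ : (bl G m).Subgraph).deleteVerts u).coe with hH'
    have hadj : ∀ x y : ((⊤ : (bl G m).Subgraph).deleteVerts u).verts,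
        G.Adj x.1.1 y.1.1 → H'.Adj x y := by
      intro x y hxy
      rw [hH', SimpleGraph.Subgraph.coe_adj, SimpleGraph.Subgraph.deleteVerts_adj]
      refine ⟨Set.mem_univ _, ?_, Set.mem_univ _, ?_, hxy⟩
      · exact x.2.2
      · exact y.2.2
    have hadj' : ∀ x y : ((⊤ : (bl G m).Subgraph).deleteVerts u).verts,
        H'.Adj x y → G.Adj x.1.1 y.1.1 := by
      intro x y hxy
      rw [hH', SimpleGraph.Subgraph.coe_adj, SimpleGraph.Subgraph.deleteVerts_adj] at hxy
      exact hxy.2.2.2.2
    have hmem : ∀ x : Cpy m, x ∉ u → x ∈ ((⊤ : (bl G m).Subgraph).deleteVerts u).verts :=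
      fun x hx => ⟨Set.mem_univ _, hx⟩
    set I : Finset (Cpy m) := Finset.univ.filter (fun x => x ∉ u ∧ ∀ y, y ∉ u → ¬ G.Adj x.1 y.1)
      with hI
    have hIm : ∀ x, x ∈ I ↔ x ∉ u ∧ ∀ y, y ∉ u → ¬ G.Adj x.1 y.1 := by
      intro x
      rw [hI, Finset.mem_filter]
      simp
    -- number of odd components
    have claim1 : H'.oddComponents.ncard ≤ I.card + 1 := by
      set B : Set H'.ConnectedComponent := {c | c ∈ H'.oddComponents ∧ (c.out : Cpy m) ∈ I} with hB
      set B' : Set H'.ConnectedComponent := {c | c ∈ H'.oddComponents ∧ (c.out : Cpy m) ∉ I} with hB'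
      have e1 : H'.oddComponents = B ∪ B' := by
        ext c
        rw [hB, hB']
        constructor
        · intro hc
          by_cases hcI : (c.out : Cpy m) ∈ I
          · exact Or.inl ⟨hc, hcI⟩
          · exact Or.inr ⟨hc, hcI⟩
        · rintro (hc | hc)
          · exact hc.1
          · exact hc.1
      have e2 : B.ncard ≤ I.card := by
        rw [← Set.ncard_coe_finset]
        refine Set.ncard_le_ncard_of_injOn (fun c => (c.out : Cpy m)) ?_ ?_ (Set.toFinite _)
        · rintro c hc
          exact hc.2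
        · intro c _ c' _ hcc
          have : c.out = c'.out := Subtype.ext hcc
          rw [← Quot.out_eq c, ← Quot.out_eq c', this]
      have e3 : B'.ncard ≤ 1 := by
        rw [Set.ncard_le_one (Set.toFinite _)]
        have key : ∀ c ∈ B', ∃ y, H'.Adj c.out y := by
          rintro c ⟨_, hc⟩
          rw [hIm] at hc
          push Not at hc
          obtain ⟨y, hy, hadjy⟩ := hc c.out.2.2
          exact ⟨⟨y, hmem y hy⟩, hadj _ _ hadjy⟩
        intro c hc c' hc'
        obtain ⟨y, hy⟩ := key c hc
        obtain ⟨y', hy'⟩ := key c' hc'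
        have r1 : H'.connectedComponentMk c.out = c := Quot.out_eq c
        have r2 : H'.connectedComponentMk c'.out = c' := Quot.out_eq c'
        rw [← r1, ← r2, SimpleGraph.ConnectedComponent.eq]
        rcases hG _ _ _ _ (hadj' _ _ hy) (hadj' _ _ hy') with h' | h' | h' | h'
        · exact (hadj _ _ h').reachable
        · exact (hadj _ _ h').reachable.trans hy'.symm.reachable
        · exact hy.reachable.trans (hadj _ _ h').reachable
        · exact hy.reachable.trans ((hadj _ _ h').reachable.trans hy'.symm.reachable)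
      calc H'.oddComponents.ncard = (B ∪ B').ncard := by rw [e1]
        _ ≤ B.ncard + B'.ncard := Set.ncard_union_le _ _
        _ ≤ I.card + 1 := by omega
    have claim2 := SimpleGraph.odd_ncard_oddComponents H'
    have hcard : Nat.card ((⊤ : (bl G m).Subgraph).deleteVerts u).verts + u.ncard = 2 * Q := by
      have e1 : Nat.card ((⊤ : (bl G m).Subgraph).deleteVerts u).verts = (uᶜ).ncard := by
        rw [Nat.card_coe_set_eq]
        congr 1
        ext x
        simp
      rw [e1, add_comm, Set.ncard_add_ncard_compl, Nat.card_eq_fintype_card, ← hd, ← ws_univ,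
        ← card_copies]
      simp
    have hI1 : u.ncard + 1 ≤ I.card := by
      by_contra hcon
      push Not at hcon
      have h1 : H'.oddComponents.ncard = u.ncard + 1 := by omega
      rw [h1] at claim2
      by_cases ho : Odd (u.ncard + 1)
      · have h2 := claim2.1 ho
        obtain ⟨a, ha⟩ := ho
        obtain ⟨b, hb⟩ := h2
        omega
      · have h2 : ¬ Odd _ := fun h' => ho (claim2.2 h')
        rw [Nat.not_odd_iff_even] at ho h2
        obtain ⟨a, ha⟩ := ho
        obtain ⟨b, hb⟩ := h2
        omega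
    set T : Finset V := I.image Sigma.fst with hT
    have hTm : ∀ v, v ∈ T ↔ ∃ x ∈ I, x.1 = v := by
      intro v
      rw [hT, Finset.mem_image]
    have hTi : Ind G T := by
      intro v hv w hw hvw
      obtain ⟨x, hx, rfl⟩ := (hTm v).1 hv
      obtain ⟨y, hy, rfl⟩ := (hTm w).1 hw
      exact ((hIm x).1 hx).2 y ((hIm y).1 hy).1 hvw
    have h1 : I.card ≤ ws m T := by
      rw [← card_copies]
      refine Finset.card_le_card ?_
      intro x hx
      rw [Finset.mem_filter]
      exact ⟨Finset.mem_univ _, (hTm _).2 ⟨x, hx, rfl⟩⟩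
    have h2 : ws m (nb G T) ≤ u.ncard := by
      rw [← card_copies, ← Set.ncard_coe_finset]
      refine Set.ncard_le_ncard ?_ (Set.toFinite _)
      intro x hx
      rw [Finset.mem_coe, Finset.mem_filter] at hx
      obtain ⟨t, ht, htx⟩ := mem_nb.1 hx.2
      obtain ⟨y, hy, rfl⟩ := (hTm t).1 ht
      by_contra hxu
      exact ((hIm y).1 hy).2 x hxu htx
    have h3 := h T hTi
    omega

end Pool.Agent.LQ.T1
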