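import Pool.Agent.Helper29.T1.Comp

/-!
# MP_e2a5d3_al : the exchange property of the blocks
-/

set_option linter.unusedSectionVars false

namespace Pool.Agent.LQ.T1

open Finsupp

variable {V : Type*} [Fintype V] [DecidableEq V]

theorem dl_exch {G : SimpleGraph V} {c : V → ℕ} {m m2 : V →₀ ℕ} {s z : V}
    (h : m2 + δ s = m + δ z) (U : Finset V) :
    dl G c m2 U = dl G c m U - ws (⇑(δ z)) (nb G U) + ws (⇑(δ s)) (nb G U) := by
  have h1 : ws (⇑(m2 + δ s)) (nb G U) = ws (⇑(m + δ z)) (nb G U) := by rw [h]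
  rw [ws_add, ws_add] at h1
  unfold dl
  omega

section

variable {G : SimpleGraph V} (hG : GF G) {Q : ℕ} {c : V → ℕ}
  (hc : ∀ T, Ind G T → ws c T ≤ Q) {m : V →₀ ℕ} (hm : m ∈ P G Q) (hmc : ∀ v, m v ≤ c v)

include hG hc hm hmc

/-- the exchange does not change the block -/
theorem stay {T : Finset V} (hT : Mx G c m T) (hTm : ∀ U, Mx G c m U → T ⊆ U) {z s : V}
    (hzT : z ∉ nb G T) (hsT : s ∉ nb G T)
    (hC1 : ∀ U, Mx G c m U → z ∉ nb G U → s ∉ nb G U) {m2 : V →₀ ℕ}
    (e : m2 + δ s = m + δ z) :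
    mxd G c m2 = mxd G c m ∧ Mx G c m2 T ∧ (∀ U, Mx G c m2 U → T ⊆ U) ∧
      ∀ v ∈ nb G T, m2 v = m v := by
  have key : ∀ U, Ind G U → dl G c m2 U ≤ mxd G c m ∧ (dl G c m2 U = mxd G c m → T ⊆ U) := by
    intro U hU
    have h1 := dl_exch (G := G) (c := c) e U
    have h2 := dl_le_mxd (c := c) (m := m) hU
    by_cases hs : s ∈ nb G U
    · by_cases hz : z ∈ nb G U
      · rw [ws_δ_mem hs, ws_δ_mem hz] at h1
        refine ⟨by omega, fun h3 => hTm U ⟨hU, by omega⟩⟩
      · rw [ws_δ_mem hs, ws_δ_not hz] at h1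
        have h3 : dl G c m U ≠ mxd G c m := fun h => hC1 U ⟨hU, h⟩ hz hs
        refine ⟨by omega, fun h4 => ?_⟩
        by_contra hTU
        have hpos : 0 < mxd G c m := by
          by_contra hcon
          have h0 : mxd G c m = 0 := by omega
          have h1 := hTm ∅ ⟨ind_empty G, by rw [dl_empty, h0]; rfl⟩
          exact hTU (h1.trans (Finset.empty_subset U))
        have hcp : Cp G T U := cp_of_pos hG hc hm hmc hT.1 hU (by rw [hT.2]; omega)
        have k1 := dl_super G c m T U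
        rw [hT.2] at k1
        have k2 := dl_le_mxd (c := c) (m := m) (hT.1.union hU hcp)
        have hI := hT.1.subset (Finset.inter_subset_left (s₂ := U))
        have k3 := dl_le_mxd (c := c) (m := m) hI
        have k4 : dl G c m (T ∩ U) ≠ mxd G c m := fun h =>
          hTU ((hTm _ ⟨hI, h⟩).trans Finset.inter_subset_right)
        have k5 : Mx G c m (T ∪ U) := ⟨hT.1.union hU hcp, by omega⟩
        refine hC1 _ k5 ?_ ?_
        · rw [nb_union, Finset.mem_union]
          rintro (h | h)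
          · exact hzT h
          · exact hz h
        · rw [nb_union, Finset.mem_union]
          exact Or.inr hs
    · rw [ws_δ_not hs] at h1
      have h3 := ws_δ_le (nb G U) z
      exact ⟨by omega, fun h4 => hTm U ⟨hU, by omega⟩⟩
  have hT2 : dl G c m2 T = mxd G c m := by
    rw [dl_exch e T, ws_δ_not hzT, ws_δ_not hsT, hT.2]
    simp
  have heq : mxd G c m2 = mxd G c m := by
    obtain ⟨U, hU, hUd⟩ := exists_mxd G c m2
    have h1 := (key U hU).1
    have h2 := dl_le_mxd (c := c) (m := m2) hT.1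
    omega
  refine ⟨heq, ⟨hT.1, by rw [hT2, heq]⟩, fun U hU => (key U hU.1).2 (by rw [hU.2, heq]), ?_⟩
  intro v hv
  have h1 := pw e v
  simp only [Finsupp.add_apply] at h1
  rw [δ_ne (by rintro rfl; exact hsT hv), δ_ne (by rintro rfl; exact hzT hv)] at h1
  omega

/-- sets compatible with `T` -/
theorem cp_ineq {T : Finset V} (hT : Mx G c m T) {J : Finset V} (hJ : Ind G J)
    (hcp : Cp G T J) :
    dl G c m (T ∪ J) ≤ mxd G c m ∧
    (ws m (nb G (J ∩ T)) : ℤ) + ws c (J \ T) + (mxd G c m - dl G c m (T ∪ J)) ≤ ws m (nb G J) := by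
  have h1 := dl_le_mxd (c := c) (m := m) (hT.1.union hJ hcp)
  refine ⟨h1, ?_⟩
  have h2 := hT.2
  have h3 : ws c (T ∪ J) = ws c T + ws c (J \ T) := by
    have k1 := ws_union_inter c T J
    have k2 := ws_sdiff_inter c J T
    rw [Finset.inter_comm] at k2
    omega
  have h4 : ws m (nb G (T ∪ J)) + ws m (nb G T ∩ nb G J) = ws m (nb G T) + ws m (nb G J) := by
    rw [nb_union]
    exact ws_union_inter m _ _
  have h5 : ws m (nb G (J ∩ T)) ≤ ws m (nb G T ∩ nb G J) := by
    rw [Finset.inter_comm J T]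
    exact ws_mono_set m (nb_inter G T J)
  unfold dl at h1 h2 ⊢
  omega

/-- the Hall violators of an exchange are compatible with `T` -/
theorem cp_viol {T : Finset V} (hT : Mx G c m T) (hTm : ∀ U, Mx G c m U → T ⊆ U) {z s : V}
    (hzc : m z < c z) {m2 : V →₀ ℕ}
    (e : m2 + δ s = m + δ z) {J : Finset V} (hJ : Ind G J)
    (hv : ws m2 (nb G J) < ws m2 J) : Cp G T J := by
  by_contra hcon
  have hpos : 0 < mxd G c m := by
    by_contra h0'
    have h0 : mxd G c m = 0 := by omega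
    have h1 := hTm ∅ ⟨ind_empty G, by rw [dl_empty, h0]; rfl⟩
    apply hcon
    intro x hx
    exact absurd (h1 hx) (Finset.notMem_empty _)
  have h1 := incompat hG hc hm hmc hT.1 hJ hcon
  rw [hT.2] at h1
  have h2 : ws (⇑(m2 + δ s)) (nb G J) = ws (⇑(m + δ z)) (nb G J) := by rw [e]
  have h3 : ws (⇑(m2 + δ s)) J = ws (⇑(m + δ z)) J := by rw [e]
  rw [ws_add, ws_add] at h2 h3
  have h4 := ws_δ_le (nb G J) s
  unfold dl at h1
  by_cases hzJ : z ∈ J
  · rw [ws_δ_mem hzJ] at h3
    have h5 : ws m J + 1 ≤ ws c J := ws_lt (fun v _ => hmc v) hzJ hzc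
    omega
  · rw [ws_δ_not hzJ] at h3
    have h5 : ws m J ≤ ws c J := ws_mono (fun v _ => hmc v)
    omega

theorem block_ex {m' : V →₀ ℕ} (hm' : m' ∈ P G Q) (hmc' : ∀ v, m' v ≤ c v)
    {T : Finset V} (hT : Mx G c m T) (hTm : ∀ U, Mx G c m U → T ⊆ U)
    (hh : mxd G c m' = mxd G c m) (hA : ∀ v ∈ nb G T, m' v = m v) {z : V} (hz : m z < m' z) :
    ∃ s m2, m' s < m s ∧ m2 ∈ P G Q ∧ m2 + δ s = m + δ z ∧ (∀ v, m2 v ≤ c v) ∧
      mxd G c m2 = mxd G c m ∧ Mx G c m2 T ∧ (∀ U, Mx G c m2 U → T ⊆ U) ∧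
      ∀ v ∈ nb G T, m2 v = m v := by
  have hzc : m z < c z := lt_of_lt_of_le hz (hmc' z)
  have hzT : z ∉ nb G T := fun h => by
    have := hA z h
    omega
  -- the largest maximizer avoided by `z`
  obtain ⟨U1, hU1, hU1m⟩ := exists_max_set (p := fun U => Mx G c m U ∧ z ∉ nb G U)
    ⟨T, hT, hzT⟩ (by
      rintro A B ⟨hA1, hA2⟩ ⟨hB1, hB2⟩
      have hcp : Cp G A B := by
        by_cases hpos : 0 < mxd G c m
        · exact cp_of_pos hG hc hm hmc hA1.1 hB1.1 (by rw [hA1.2, hB1.2]; omega)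
        · by_contra hcon
          have h0 : mxd G c m = 0 := by omega
          have h1 := incompat' hG hc hm hmc (fun S hS => by
            have := dl_le_mxd (c := c) (m := m) hS
            omega) hzc hA1.1 hB1.1 hA2 hB2 hcon
          rw [hA1.2, hB1.2] at h1
          omega
      have k1 := dl_super G c m A B
      have k2 := dl_le_mxd (c := c) (m := m) (hA1.1.union hB1.1 hcp)
      have k3 := dl_le_mxd (c := c) (m := m) (hA1.1.subset (Finset.inter_subset_left (s₂ := B)))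
      have k4 := hA1.2
      have k5 := hB1.2
      refine ⟨⟨hA1.1.union hB1.1 hcp, by omega⟩, ?_⟩
      rw [nb_union, Finset.mem_union]
      rintro (h | h)
      · exact hA2 h
      · exact hB2 h)
  have hTU1 : T ⊆ U1 := hU1m T ⟨hT, hzT⟩
  -- the common final argument
  have fin : ∀ s, m' s < m s → s ∉ nb G T → (∀ U, Mx G c m U → z ∉ nb G U → s ∉ nb G U) →
      (∀ m2 : V →₀ ℕ, m2 + δ s = m + δ z → ∀ J, Ind G J → Cp G T J →
        ws m2 (nb G J) < ws m2 J → False) →
      ∃ s m2, m' s < m s ∧ m2 ∈ P G Q ∧ m2 + δ s = m + δ z ∧ (∀ v, m2 v ≤ c v) ∧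
      mxd G c m2 = mxd G c m ∧ Mx G c m2 T ∧ (∀ U, Mx G c m2 U → T ⊆ U) ∧
      ∀ v ∈ nb G T, m2 v = m v := by
    intro s hs hsT hC1 hHall
    have hsz : z ≠ s := by
      rintro rfl
      omega
    have e : (m + δ z - δ s) + δ s = m + δ z := by
      refine tsub_add_cancel_of_le ?_
      rw [Finsupp.single_le_iff]
      simp only [Finsupp.add_apply]
      omega
    set m2 := m + δ z - δ s with hm2
    have hcap : ∀ v, m2 v ≤ c v := by
      intro v
      have h1 := pw e v
      simp only [Finsupp.add_apply] at h1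
      by_cases hv : z = v
      · subst hv
        rw [δ_self] at h1
        omega
      · rw [δ_ne hv] at h1
        have := hmc v
        omega
    have hP : m2 ∈ P G Q := by
      refine hall_hard hG ?_ ?_
      · have h1 := congrArg Finsupp.degree e
        rw [map_add, map_add, degree_of_mem_P hm, degree_single, degree_single] at h1
        omega
      · intro J hJ
        by_contra hcon
        push Not at hcon
        exact hHall m2 e J hJ (cp_viol hG hc hm hmc hT hTm hzc e hJ hcon) hcon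
    obtain ⟨a1, a2, a3, a4⟩ := stay hG hc hm hmc hT hTm hzT hsT hC1 e
    exact ⟨s, m2, hs, hP, e, hcap, a1, a2, a3, a4⟩
  by_cases hα : ∀ J0, J0 ⊆ T → z ∈ J0 → ws m J0 < ws m (nb G J0)
  · -- choose `s` outside of the neighbourhood of `U1`
    obtain ⟨s, hs, hsU⟩ : ∃ s, m' s < m s ∧ s ∉ nb G U1 := by
      by_contra hcon
      push Not at hcon
      have h1 : ws m (Finset.univ \ nb G U1) + 1 ≤ ws m' (Finset.univ \ nb G U1) := by
        refine ws_lt (fun v hv => ?_) (Finset.mem_sdiff.2 ⟨Finset.mem_univ z, hU1.2⟩) hz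
        by_contra hlt
        push Not at hlt
        exact (Finset.mem_sdiff.1 hv).2 (hcon v hlt)
      have h2 := ws_sdiff_inter m Finset.univ (nb G U1)
      have h3 := ws_sdiff_inter m' Finset.univ (nb G U1)
      rw [Finset.univ_inter, ws_univ_P hm] at h2
      rw [Finset.univ_inter, ws_univ_P hm'] at h3
      have h4 := hU1.1.2
      have h5 := dl_le_mxd (c := c) (m := m') hU1.1.1
      unfold dl at h4 h5
      omega
    refine fin s hs (fun h => hsU (nb_mono hTU1 h))
      (fun U hU hzU h => hsU (nb_mono (hU1m U ⟨hU, hzU⟩) h)) ?_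
    intro m2 e J hJ hcp hv
    obtain ⟨k1, k2⟩ := cp_ineq hG hc hm hmc hT hJ hcp
    have h2 : ws (⇑(m2 + δ s)) (nb G J) = ws (⇑(m + δ z)) (nb G J) := by rw [e]
    have h3 : ws (⇑(m2 + δ s)) J = ws (⇑(m + δ z)) J := by rw [e]
    rw [ws_add, ws_add] at h2 h3
    have h4 := ws_sdiff_inter m J T
    have h5 : ws m (J ∩ T) ≤ ws m (nb G (J ∩ T)) :=
      hall_easy (hJ.subset Finset.inter_subset_left) hm
    have h6 : ws m (J \ T) ≤ ws c (J \ T) := ws_mono (fun v _ => hmc v)
    -- contribution of `z`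
    have h7 : ws (⇑(δ z)) J + ws m (J ∩ T) + ws m (J \ T) ≤
        ws m (nb G (J ∩ T)) + ws c (J \ T) := by
      by_cases hzJ : z ∈ J
      · rw [ws_δ_mem hzJ]
        by_cases hzT' : z ∈ T
        · have := hα (J ∩ T) Finset.inter_subset_right (Finset.mem_inter.2 ⟨hzJ, hzT'⟩)
          omega
        · have : ws m (J \ T) + 1 ≤ ws c (J \ T) :=
            ws_lt (fun v _ => hmc v) (Finset.mem_sdiff.2 ⟨hzJ, hzT'⟩) hzc
          omega
      · rw [ws_δ_not hzJ]
        omega
    by_cases hsJ : s ∈ nb G J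
    · rw [ws_δ_mem hsJ] at h2
      by_cases hzJ : z ∈ nb G J
      · rw [ws_δ_mem hzJ] at h2
        omega
      · have h8 : dl G c m (T ∪ J) ≠ mxd G c m := by
          intro h
          have h9 : T ∪ J ⊆ U1 := hU1m _ ⟨⟨hT.1.union hJ hcp, h⟩, by
            rw [nb_union, Finset.mem_union]
            rintro (h | h)
            · exact hzT h
            · exact hzJ h⟩
          exact hsU (nb_mono (Finset.subset_union_right.trans h9) hsJ)
        omega
    · rw [ws_δ_not hsJ] at h2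
      omega
  · push Not at hα
    obtain ⟨J', hJ'T, hzJ', hJ't⟩ := hα
    have hz' : z ∈ T := hJ'T hzJ'
    obtain ⟨J0, ⟨hJ0T, hzJ0, hJ0t⟩, hJ0m⟩ := exists_min_set
      (p := fun J => J ⊆ T ∧ z ∈ J ∧ ws m (nb G J) ≤ ws m J) ⟨J', hJ'T, hzJ', hJ't⟩ (by
        rintro A B ⟨hA1, hA2, hA3⟩ ⟨hB1, hB2, hB3⟩
        refine ⟨Finset.inter_subset_left.trans hA1, Finset.mem_inter.2 ⟨hA2, hB2⟩, ?_⟩
        have k1 := ws_union_inter m A B
        have k2 := ws_union_inter m (nb G A) (nb G B)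
        have k3 := ws_mono_set m (nb_inter G A B)
        have k4 : ws m (A ∪ B) ≤ ws m (nb G (A ∪ B)) :=
          hall_easy (hT.1.subset (Finset.union_subset hA1 hB1)) hm
        rw [nb_union] at k4
        omega)
    obtain ⟨s, hsJ, hs⟩ : ∃ s ∈ J0, m' s < m s := by
      by_contra hcon
      push Not at hcon
      have h1 : ws m J0 + 1 ≤ ws m' J0 := ws_lt hcon hzJ0 hz
      have h2 : ws m' J0 ≤ ws m' (nb G J0) := hall_easy (hT.1.subset hJ0T) hm'
      have h3 : ws m' (nb G J0) = ws m (nb G J0) :=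
        Finset.sum_congr rfl (fun v hv => hA v (nb_mono hJ0T hv))
      omega
    have hsT : s ∈ T := hJ0T hsJ
    refine fin s hs (hT.1.nb_not hsT) (fun U hU _ => hU.1.nb_not (hTm U hU hsT)) ?_
    intro m2 e J hJ hcp hv
    obtain ⟨k1, k2⟩ := cp_ineq hG hc hm hmc hT hJ hcp
    have h2 : ws (⇑(m2 + δ s)) (nb G J) = ws (⇑(m + δ z)) (nb G J) := by rw [e]
    have h3 : ws (⇑(m2 + δ s)) J = ws (⇑(m + δ z)) J := by rw [e]
    rw [ws_add, ws_add] at h2 h3
    have h4 := ws_sdiff_inter m J T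
    have h5 : ws m (J ∩ T) ≤ ws m (nb G (J ∩ T)) :=
      hall_easy (hJ.subset Finset.inter_subset_left) hm
    have h6 : ws m (J \ T) ≤ ws c (J \ T) := ws_mono (fun v _ => hmc v)
    have hsn : s ∉ nb G J := fun h => by
      obtain ⟨t, ht, hts⟩ := mem_nb.1 h
      exact hcp s hsT t ht hts.symm
    have hzn : z ∉ nb G J := fun h => by
      obtain ⟨t, ht, htz⟩ := mem_nb.1 h
      exact hcp z hz' t ht htz.symm
    rw [ws_δ_not hsn, ws_δ_not hzn] at h2
    by_cases hsJ' : s ∈ J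
    · have := ws_δ_le J z
      rw [ws_δ_mem hsJ'] at h3
      omega
    · rw [ws_δ_not hsJ'] at h3
      by_cases hzJ : z ∈ J
      · rw [ws_δ_mem hzJ] at h3
        by_cases ht : ws m (nb G (J ∩ T)) ≤ ws m (J ∩ T)
        · have h7 := hJ0m (J ∩ T) ⟨Finset.inter_subset_right, Finset.mem_inter.2 ⟨hzJ, hz'⟩, ht⟩
          exact hsJ' (Finset.mem_inter.1 (h7 hsJ)).1
        · omega
      · rw [ws_δ_not hzJ] at h3
        omega

end

end Pool.Agent.LQ.T1
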