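import Pool.Agent.Helper29.T1.Hall

/-!
# MP_e2a5d3_al : deficiencies, compatibility and the improving exchange
-/

set_option linter.unusedSectionVars false

namespace Pool.Agent.LQ.T1

open Finsupp

variable {V : Type*} [Fintype V] [DecidableEq V]

/-- the deficiency of a set with respect to the caps `c` and the degree vector `m` -/
noncomputable def dl (G : SimpleGraph V) (c : V → ℕ) (m : V →₀ ℕ) (T : Finset V) : ℤ :=
  (ws c T : ℤ) - ws m (nb G T)

theorem dl_super (G : SimpleGraph V) (c : V → ℕ) (m : V →₀ ℕ) (T U : Finset V) :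
    dl G c m T + dl G c m U ≤ dl G c m (T ∪ U) + dl G c m (T ∩ U) := by
  unfold dl
  have h1 := ws_union_inter c T U
  have h2 := ws_union_inter m (nb G T) (nb G U)
  have h3 := ws_mono_set m (nb_inter G T U)
  rw [← nb_union] at h2
  omega

theorem dl_empty (G : SimpleGraph V) (c : V → ℕ) (m : V →₀ ℕ) : dl G c m ∅ = 0 := by
  unfold dl
  rw [nb_empty, ws_empty, ws_empty]
  simp

theorem dl_aux {G : SimpleGraph V} {Q : ℕ} {c : V → ℕ}
    (hc : ∀ T, Ind G T → ws c T ≤ Q) {m : V →₀ ℕ} (hm : m ∈ P G Q)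
    {T U W : Finset V} (hT : Ind G T) (hU : Ind G U) (hW : Ind G W) (hTW : Cp G T W)
    (hUW : Cp G U W) (hsup : ∀ w, w ∉ nb G T → w ∉ nb G U → 0 < m w → w ∈ W) :
    dl G c m T + dl G c m U + ws c W + ws m (nb G T ∩ nb G U) ≤ ws m W + ws c (T ∩ U ∩ W) := by
  have h1 := hc _ (hT.union hW hTW)
  have h2 := hc _ (hU.union hW hUW)
  have h3 := ws_union_inter c T W
  have h4 := ws_union_inter c U W
  have h5 := ws_union_inter c (T ∩ W) (U ∩ W)
  have h6 : ws c (T ∩ W ∪ U ∩ W) ≤ ws c W :=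
    ws_mono_set c (Finset.union_subset Finset.inter_subset_right Finset.inter_subset_right)
  have h7 : T ∩ W ∩ (U ∩ W) = T ∩ U ∩ W := by
    ext v
    simp only [Finset.mem_inter]
    tauto
  rw [h7] at h5
  have h8 := ws_union_inter m (nb G T) (nb G U)
  have h9 : ws m Finset.univ ≤ ws m (nb G T ∪ nb G U) + ws m W := by
    have k1 := ws_sdiff_inter m Finset.univ (nb G T ∪ nb G U)
    have k2 : ws m (Finset.univ \ (nb G T ∪ nb G U)) ≤ ws m W := by
      unfold ws
      rw [← Finset.sum_filter_add_sum_filter_not (Finset.univ \ (nb G T ∪ nb G U))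
        (fun v => 0 < m v)]
      have k3 : ∑ x ∈ (Finset.univ \ (nb G T ∪ nb G U)).filter (fun v => ¬ 0 < m v), m x = 0 := by
        refine Finset.sum_eq_zero (fun v hv => ?_)
        rw [Finset.mem_filter] at hv
        omega
      rw [k3, add_zero]
      refine Finset.sum_le_sum_of_subset (fun v hv => ?_)
      rw [Finset.mem_filter, Finset.mem_sdiff, Finset.mem_union] at hv
      exact hsup v (fun h => hv.1.2 (Or.inl h)) (fun h => hv.1.2 (Or.inr h)) hv.2
    rw [Finset.univ_inter] at k1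
    omega
  rw [ws_univ_P hm] at h9
  unfold dl
  omega

/-- the set `W` used in the compatibility arguments -/
theorem ind_of_edge {G : SimpleGraph V} (hG : GF G) {T U W : Finset V} {t u : V} (ht : t ∈ T)
    (hu : u ∈ U) (htu : G.Adj t u) (hW : ∀ w ∈ W, w ∉ nb G T ∧ w ∉ nb G U) :
    Ind G W ∧ Cp G T W ∧ Cp G U W := by
  refine ⟨?_, ?_, ?_⟩
  · intro w hw w' hw' hww
    rcases hG _ _ _ _ htu hww with h | h | h | h
    · exact (hW w hw).1 (mem_nb.2 ⟨t, ht, h⟩)
    · exact (hW w' hw').1 (mem_nb.2 ⟨t, ht, h⟩)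
    · exact (hW w hw).2 (mem_nb.2 ⟨u, hu, h⟩)
    · exact (hW w' hw').2 (mem_nb.2 ⟨u, hu, h⟩)
  · intro x hx w hw h
    exact (hW w hw).1 (mem_nb.2 ⟨x, hx, h⟩)
  · intro x hx w hw h
    exact (hW w hw).2 (mem_nb.2 ⟨x, hx, h⟩)

theorem ws_caps {c : V → ℕ} {m : V →₀ ℕ} (hmc : ∀ v, m v ≤ c v) {W W' : Finset V} (h : W' ⊆ W) :
    ws m W + ws c W' ≤ ws c W + ws m W' := by
  have h1 := ws_sdiff_inter c W W'
  have h2 := ws_sdiff_inter m W W'
  have h3 : ws m (W \ W') ≤ ws c (W \ W') := ws_mono (fun v _ => hmc v)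
  rw [Finset.inter_eq_right.2 h] at h1 h2
  omega

theorem ws_caps' {c : V → ℕ} {m : V →₀ ℕ} (hmc : ∀ v, m v ≤ c v) {W W' : Finset V} (h : W' ⊆ W)
    {z : V} (hz : z ∈ W) (hz' : z ∉ W') (hlt : m z < c z) :
    ws m W + ws c W' + 1 ≤ ws c W + ws m W' := by
  have h1 := ws_sdiff_inter c W W'
  have h2 := ws_sdiff_inter m W W'
  have h3 : ws m (W \ W') + 1 ≤ ws c (W \ W') :=
    ws_lt (fun v _ => hmc v) (Finset.mem_sdiff.2 ⟨hz, hz'⟩) hlt
  rw [Finset.inter_eq_right.2 h] at h1 h2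
  omega

/-- two incompatible independent sets: the sum of the deficiencies is at most `0`. -/
theorem incompat {G : SimpleGraph V} (hG : GF G) {Q : ℕ} {c : V → ℕ}
    (hc : ∀ T, Ind G T → ws c T ≤ Q) {m : V →₀ ℕ} (hm : m ∈ P G Q) (hmc : ∀ v, m v ≤ c v)
    {T U : Finset V} (hT : Ind G T) (hU : Ind G U) (h : ¬ Cp G T U) :
    dl G c m T + dl G c m U ≤ 0 := by
  unfold Cp at h
  push Not at h
  obtain ⟨t, ht, u, hu, htu⟩ := h
  set W : Finset V := Finset.univ.filter (fun w => 0 < m w ∧ w ∉ nb G T ∧ w ∉ nb G U) with hWd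
  have hWm : ∀ w, w ∈ W ↔ 0 < m w ∧ w ∉ nb G T ∧ w ∉ nb G U := by
    intro w
    rw [hWd, Finset.mem_filter]
    simp
  obtain ⟨hW, hTW, hUW⟩ := ind_of_edge hG ht hu htu (fun w hw => ((hWm w).1 hw).2)
  have h1 := dl_aux hc hm hT hU hW hTW hUW (fun w h1 h2 h3 => (hWm w).2 ⟨h3, h1, h2⟩)
  have h2 : ws m W + ws c (T ∩ U ∩ W) ≤ ws c W + ws m (T ∩ U ∩ W) :=
    ws_caps hmc Finset.inter_subset_right
  have h3 : ws m (T ∩ U ∩ W) ≤ ws m (nb G (T ∩ U ∩ W)) :=
    hall_easy (hW.subset Finset.inter_subset_right) hm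
  have h4 : ws m (nb G (T ∩ U ∩ W)) ≤ ws m (nb G T ∩ nb G U) :=
    ws_mono_set m ((nb_mono Finset.inter_subset_left).trans (nb_inter G T U))
  omega

/-- version with a vertex `z` below its cap which is adjacent to neither set -/
theorem incompat' {G : SimpleGraph V} (hG : GF G) {Q : ℕ} {c : V → ℕ}
    (hc : ∀ T, Ind G T → ws c T ≤ Q) {m : V →₀ ℕ} (hm : m ∈ P G Q) (hmc : ∀ v, m v ≤ c v)
    (h0 : ∀ S, Ind G S → dl G c m S ≤ 0) {z : V} (hz : m z < c z)
    {T U : Finset V} (hT : Ind G T) (hU : Ind G U) (hzT : z ∉ nb G T) (hzU : z ∉ nb G U)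
    (h : ¬ Cp G T U) :
    dl G c m T + dl G c m U < 0 := by
  unfold Cp at h
  push Not at h
  obtain ⟨t, ht, u, hu, htu⟩ := h
  set W : Finset V := Finset.univ.filter (fun w => (0 < m w ∨ w = z) ∧ w ∉ nb G T ∧ w ∉ nb G U)
    with hWd
  have hWm : ∀ w, w ∈ W ↔ (0 < m w ∨ w = z) ∧ w ∉ nb G T ∧ w ∉ nb G U := by
    intro w
    rw [hWd, Finset.mem_filter]
    simp
  obtain ⟨hW, hTW, hUW⟩ := ind_of_edge hG ht hu htu (fun w hw => ((hWm w).1 hw).2)
  have h1 := dl_aux hc hm hT hU hW hTW hUW (fun w h1 h2 h3 => (hWm w).2 ⟨Or.inl h3, h1, h2⟩)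
  have hzW : z ∈ W := (hWm z).2 ⟨Or.inr rfl, hzT, hzU⟩
  have hsub : T ∩ U ∩ W ⊆ W := Finset.inter_subset_right
  have h4 : ws m (nb G (T ∩ U ∩ W)) ≤ ws m (nb G T ∩ nb G U) :=
    ws_mono_set m ((nb_mono Finset.inter_subset_left).trans (nb_inter G T U))
  by_cases hz' : z ∈ T ∩ U ∩ W
  · have h2 := ws_caps hmc hsub
    have h3 := h0 _ (hW.subset hsub)
    have h5 : ws m (T ∩ U ∩ W) + 1 ≤ ws c (T ∩ U ∩ W) := ws_lt (fun v _ => hmc v) hz' hz
    unfold dl at h3
    omega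
  · have h2 := ws_caps' hmc hsub hzW hz' hz
    have h3 : ws m (T ∩ U ∩ W) ≤ ws m (nb G (T ∩ U ∩ W)) := hall_easy (hW.subset hsub) hm
    omega

open Classical in
/-- the maximal deficiency of an independent set -/
noncomputable def mxd (G : SimpleGraph V) (c : V → ℕ) (m : V →₀ ℕ) : ℕ :=
  (Finset.univ.filter (fun T : Finset V => Ind G T)).sup (fun T => (dl G c m T).toNat)

theorem dl_le_mxd {G : SimpleGraph V} {c : V → ℕ} {m : V →₀ ℕ} {T : Finset V} (hT : Ind G T) :
    dl G c m T ≤ mxd G c m := by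
  classical
  have h1 : (dl G c m T).toNat ≤ mxd G c m := by
    unfold mxd
    exact Finset.le_sup (f := fun T => (dl G c m T).toNat) (by simp [hT])
  have h2 := Int.self_le_toNat (dl G c m T)
  omega

theorem exists_mxd (G : SimpleGraph V) (c : V → ℕ) (m : V →₀ ℕ) :
    ∃ T, Ind G T ∧ dl G c m T = mxd G c m := by
  classical
  obtain ⟨T, hT, h⟩ := Finset.exists_mem_eq_sup
    (Finset.univ.filter (fun T : Finset V => Ind G T))
    ⟨∅, by simp [ind_empty]⟩ (fun T => (dl G c m T).toNat)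
  rw [Finset.mem_filter] at hT
  by_cases h0 : 0 ≤ dl G c m T
  · refine ⟨T, hT.2, ?_⟩
    unfold mxd
    rw [h]
    omega
  · refine ⟨∅, ind_empty G, ?_⟩
    have h1 : (dl G c m T).toNat = 0 := by omega
    unfold mxd
    rw [h, h1, dl_empty]
    rfl

/-- maximizers of the deficiency -/
def Mx (G : SimpleGraph V) (c : V → ℕ) (m : V →₀ ℕ) (T : Finset V) : Prop :=
  Ind G T ∧ dl G c m T = mxd G c m

theorem exists_min_set {p : Finset V → Prop} (hne : ∃ T, p T)
    (hi : ∀ T U, p T → p U → p (T ∩ U)) : ∃ T, p T ∧ ∀ U, p U → T ⊆ U := by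
  classical
  obtain ⟨T, hT, hmin⟩ := Finset.exists_min_image (Finset.univ.filter p) Finset.card
    (by obtain ⟨T, hT⟩ := hne; exact ⟨T, by simp [hT]⟩)
  rw [Finset.mem_filter] at hT
  refine ⟨T, hT.2, fun U hU => ?_⟩
  have h1 := hmin (T ∩ U) (by simp [hi T U hT.2 hU])
  have h2 : T ∩ U = T := Finset.eq_of_subset_of_card_le Finset.inter_subset_left h1
  exact Finset.inter_eq_left.1 h2

theorem exists_max_set {p : Finset V → Prop} (hne : ∃ T, p T)
    (hi : ∀ T U, p T → p U → p (T ∪ U)) : ∃ T, p T ∧ ∀ U, p U → U ⊆ T := by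
  classical
  obtain ⟨T, hT, hmax⟩ := Finset.exists_max_image (Finset.univ.filter p) Finset.card
    (by obtain ⟨T, hT⟩ := hne; exact ⟨T, by simp [hT]⟩)
  rw [Finset.mem_filter] at hT
  refine ⟨T, hT.2, fun U hU => ?_⟩
  have h1 := hmax (T ∪ U) (by simp [hi T U hT.2 hU])
  have h2 : T = T ∪ U := Finset.eq_of_subset_of_card_le Finset.subset_union_left h1
  exact Finset.union_eq_left.1 h2.symm

section

variable {G : SimpleGraph V} (hG : GF G) {Q : ℕ} {c : V → ℕ}
  (hc : ∀ T, Ind G T → ws c T ≤ Q) {m : V →₀ ℕ} (hm : m ∈ P G Q) (hmc : ∀ v, m v ≤ c v)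

include hG hc hm hmc

theorem cp_of_pos {T U : Finset V} (hT : Ind G T) (hU : Ind G U)
    (h : 0 < dl G c m T + dl G c m U) : Cp G T U := by
  by_contra hcon
  have := incompat hG hc hm hmc hT hU hcon
  omega

theorem exists_Tmin : ∃ T, Mx G c m T ∧ ∀ U, Mx G c m U → T ⊆ U := by
  rcases Nat.eq_zero_or_pos (mxd G c m) with h0 | h0
  · refine ⟨∅, ⟨ind_empty G, ?_⟩, fun U _ => Finset.empty_subset U⟩
    rw [dl_empty, h0]; rfl
  · refine exists_min_set (exists_mxd G c m) ?_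
    rintro T U ⟨hT, hT'⟩ ⟨hU, hU'⟩
    have hcp : Cp G T U := cp_of_pos hG hc hm hmc hT hU (by omega)
    have h1 := dl_super G c m T U
    have h2 := dl_le_mxd (c := c) (m := m) (hT.union hU hcp)
    have hI := hT.subset (Finset.inter_subset_left (s₂ := U))
    have h3 := dl_le_mxd (c := c) (m := m) hI
    exact ⟨hI, by omega⟩

/-- step (1): a vertex of the neighbourhood of the minimal maximizer can be entered with a
decrease of the maximal deficiency. -/
theorem step1 {T : Finset V} (hT : Mx G c m T) (hTm : ∀ U, Mx G c m U → T ⊆ U) {z : V}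
    (hz : z ∈ nb G T) (hzc : m z < c z) :
    ∃ b m', m' ∈ P G Q ∧ m' + δ b = m + δ z ∧ (∀ v, m' v ≤ c v) ∧ mxd G c m' < mxd G c m := by
  obtain ⟨t0, ht0, htz⟩ := mem_nb.1 hz
  have hpos : 0 < mxd G c m := by
    by_contra hcon
    have h0 : mxd G c m = 0 := by omega
    have h1 := hTm ∅ ⟨ind_empty G, by rw [dl_empty, h0]; rfl⟩
    exact absurd (h1 ht0) (Finset.notMem_empty _)
  set mz : V →₀ ℕ := m + δ z with hmz
  have hdl : ∀ U, dl G c mz U = dl G c m U - ws (⇑(δ z)) (nb G U) := by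
    intro U
    unfold dl
    rw [hmz, ws_add]
    push_cast
    ring
  have hle : ∀ U, Ind G U → dl G c mz U ≤ mxd G c m - 1 := by
    intro U hU
    have h1 := dl_le_mxd (c := c) (m := m) hU
    rw [hdl]
    by_cases h2 : dl G c m U = mxd G c m
    · have h3 := hTm U ⟨hU, h2⟩
      rw [ws_δ_mem (nb_mono h3 hz)]
      omega
    · omega
  have hTz : dl G c mz T = mxd G c m - 1 := by
    rw [hdl, ws_δ_mem hz, hT.2]
    rfl
  obtain ⟨T1, hT1, hT1m⟩ := exists_max_set (p := fun U => Ind G U ∧ dl G c mz U = mxd G c m - 1)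
    ⟨T, hT.1, hTz⟩ (by
      rintro U1 U2 ⟨h1, h1'⟩ ⟨h2, h2'⟩
      have hcp : Cp G U1 U2 := by
        have g1 := hdl U1
        have g2 := hdl U2
        intro t ht u hu htu
        by_cases hs : 0 < dl G c m U1 + dl G c m U2
        · exact cp_of_pos hG hc hm hmc h1 h2 hs t ht u hu htu
        · have hz1 : z ∉ nb G U1 := fun h => by
            rw [ws_δ_mem h] at g1
            omega
          have hz2 : z ∉ nb G U2 := fun h => by
            rw [ws_δ_mem h] at g2
            omega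
          rw [ws_δ_not hz1] at g1
          rw [ws_δ_not hz2] at g2
          have c1 : Cp G T U1 := cp_of_pos hG hc hm hmc hT.1 h1 (by rw [hT.2]; omega)
          have c2 : Cp G T U2 := cp_of_pos hG hc hm hmc hT.1 h2 (by rw [hT.2]; omega)
          rcases hG _ _ _ _ htu htz with h | h | h | h
          · exact c1 _ ht0 _ ht h.symm
          · exact hz1 (mem_nb.2 ⟨t, ht, h⟩)
          · exact c2 _ ht0 _ hu h.symm
          · exact hz2 (mem_nb.2 ⟨u, hu, h⟩)
      have k1 := dl_super G c mz U1 U2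
      have k2 := hle _ (h1.union h2 hcp)
      have k3 := hle _ (h1.subset (Finset.inter_subset_left (s₂ := U2)))
      exact ⟨h1.union h2 hcp, by omega⟩)
  have hTT1 : T ⊆ T1 := hT1m T ⟨hT.1, hTz⟩
  have hzT1 : z ∈ nb G T1 := nb_mono hTT1 hz
  have hlt : ws m (nb G T1) < Q := by
    have h1 := hT1.2
    rw [hdl, ws_δ_mem hzT1] at h1
    unfold dl at h1
    have h2 := hc T1 hT1.1
    omega
  have hcap : ∀ {m' : V →₀ ℕ} {b : V}, m' + δ b = m + δ z → ∀ v, m' v ≤ c v := by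
    intro m' b h v
    have h1 := pw h v
    simp only [Finsupp.add_apply] at h1
    by_cases hv : z = v
    · subst hv
      rw [δ_self] at h1
      omega
    · rw [δ_ne hv] at h1
      have := hmc v
      omega
  have hfin : ∀ {m' : V →₀ ℕ} {b : V}, m' + δ b = m + δ z → b ∉ nb G T1 →
      mxd G c m' < mxd G c m := by
    intro m' b h hb
    obtain ⟨U, hU, hUd⟩ := exists_mxd G c m'
    have h1 : dl G c m' U = dl G c mz U + ws (⇑(δ b)) (nb G U) := by
      unfold dl
      rw [hmz, ← h, ws_add]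
      push_cast
      ring
    have h2 := hle U hU
    by_cases h3 : dl G c mz U = mxd G c m - 1
    · have h4 := hT1m U ⟨hU, h3⟩
      have h5 : b ∉ nb G U := fun h' => hb (nb_mono h4 h')
      rw [ws_δ_not h5] at h1
      omega
    · have h4 := ws_δ_le (nb G U) b
      omega
  obtain ⟨q', m0, a, b, rfl, hm0, hab, rfl, ha, hb⟩ := edge_avoid (nb G T1) hm hlt
  have ht01 : t0 ∈ T1 := hTT1 ht0
  have main : ∀ a b, G.Adj z a → b ∉ nb G T1 → m0 + ev a b = m0 + ev a b →
      (m0 + ev z a) + δ b = m0 + ev a b + δ z := by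
    intro a b _ _ _
    rw [show ev z a = δ z + δ a from rfl, show ev a b = δ a + δ b from rfl]
    abel
  rcases hG _ _ _ _ htz hab with h | h | h | h
  · exact absurd (mem_nb.2 ⟨t0, ht01, h⟩) ha
  · exact absurd (mem_nb.2 ⟨t0, ht01, h⟩) hb
  · have e := main a b h hb rfl
    exact ⟨b, m0 + ev z a, ⟨m0, hm0, z, a, h, rfl⟩, e, hcap e, hfin e hb⟩
  · have e := main b a h ha rfl
    rw [ev_comm b a] at e
    exact ⟨a, m0 + ev z b, ⟨m0, hm0, z, b, h, rfl⟩, e, hcap e, hfin e ha⟩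

end

end Pool.Agent.LQ.T1
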