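import Pool.Agent.Helper29.T1.Block

/-!
# MP_e2a5d3_al : linear quotients of bounded families

For a gapfree graph `G` and caps `c` with `c(T) ≤ Q` for all independent sets `T`, the set of the
`m` in `P G Q` with `m ≤ c` has linear quotients.
-/

set_option linter.unusedSectionVars false

namespace Pool.Agent.LQ.T1

open Finsupp

variable {V : Type*} [Fintype V] [DecidableEq V]

/-- linear quotients from a filtration into classes with the exchange property -/
theorem clq_of_classes {γ : Type*} [LinearOrder γ] {E : Set (V →₀ ℕ)} (hE : E.Finite)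
    (κ : (V →₀ ℕ) → γ)
    (h : ∀ a ∈ E, ∀ b ∈ E, κ b ≤ κ a →
      (∃ t s a', a t < b t ∧ a' ∈ E ∧ a' + δ s = a + δ t ∧ κ a' < κ a) ∨
      (κ b = κ a ∧ ∀ t, a t < b t →
        ∃ s a', b s < a s ∧ a' ∈ E ∧ a' + δ s = a + δ t ∧ κ a' = κ a)) : CLQ E := by
  classical
  set e := Fintype.equivFin V with he
  set f : (V →₀ ℕ) → Lex (Fin (Fintype.card V) → ℕ) := fun a => toLex (fun i => a (e.symm i))
    with hf
  set r : (V →₀ ℕ) → γ ×ₗ (Lex (Fin (Fintype.card V) → ℕ))ᵒᵈ :=
    fun a => toLex (κ a, OrderDual.toDual (f a)) with hr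
  have hle : ∀ {a a' : V →₀ ℕ} {s t : V}, a' + δ s = a + δ t → a' ≤ a + δ t := by
    intro a a' s t h
    rw [← h]
    exact le_self_add
  refine CLQ_of_rank hE (r := r) ⟨?_, ?_⟩
  · intro a _ b _ hab
    have h1 : κ a = κ b ∧ f a = f b := by
      have h2 := congrArg ofLex hab
      have h3 : (κ a, OrderDual.toDual (f a)) = (κ b, OrderDual.toDual (f b)) := h2
      rw [Prod.mk.injEq] at h3
      exact ⟨h3.1, h3.2⟩
    refine Finsupp.ext (fun v => ?_)
    have h4 := congrFun (congrArg ofLex h1.2) (e v)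
    have h5 : a (e.symm (e v)) = b (e.symm (e v)) := h4
    simpa using h5
  · intro a ha b hb hab
    rw [hr] at hab
    have hab' := Prod.Lex.toLex_lt_toLex.1 hab
    have hκ : κ b ≤ κ a := by
      rcases hab' with h1 | h1
      · exact h1.le
      · exact h1.1.le
    rcases h a ha b hb hκ with ⟨t, s, a', h1, h2, h3, h4⟩ | ⟨h1, h2⟩
    · exact ⟨t, h1, a', h2, Prod.Lex.toLex_lt_toLex.2 (Or.inl h4), hle h3⟩
    · have h3 : f a < f b := by
        rcases hab' with h4 | h4
        · exact absurd h4 (by simp only [h1, lt_irrefl, not_false_eq_true])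
        · exact h4.2
      obtain ⟨i, hi1, hi2⟩ := h3
      have hi2' : a (e.symm i) < b (e.symm i) := hi2
      obtain ⟨s, a', k1, k2, k3, k4⟩ := h2 (e.symm i) hi2'
      refine ⟨e.symm i, hi2', a', k2, Prod.Lex.toLex_lt_toLex.2 (Or.inr ⟨k4, ?_⟩), hle k3⟩
      show f a < f a'
      have hsi : i < e s := by
        by_contra hcon
        push Not at hcon
        rcases hcon.lt_or_eq with h5 | h5
        · have h6 : a (e.symm (e s)) = b (e.symm (e s)) := hi1 (e s) h5
          rw [Equiv.symm_apply_apply] at h6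
          omega
        · rw [← h5, Equiv.symm_apply_apply] at hi2'
          omega
      refine ⟨i, fun j hj => ?_, ?_⟩
      · show a (e.symm j) = a' (e.symm j)
        have h5 := pw k3 (e.symm j)
        simp only [Finsupp.add_apply] at h5
        rw [δ_ne (fun h' => by
            rw [h', Equiv.apply_symm_apply] at hsi
            exact absurd hsi (not_lt.2 hj.le)),
          δ_ne (fun h' => hj.ne' (e.symm.injective h'))] at h5
        omega
      · show a (e.symm i) < a' (e.symm i)
        have h5 := pw k3 (e.symm i)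
        simp only [Finsupp.add_apply] at h5
        rw [δ_ne (fun h' => by
            rw [h', Equiv.apply_symm_apply] at hsi
            exact absurd hsi (lt_irrefl _)), δ_self] at h5
        omega

theorem P_finite (G : SimpleGraph V) (Q : ℕ) : (P G Q).Finite := by
  refine (Set.finite_Iic (∑ v, single v (2 * Q))).subset ?_
  intro a ha
  rw [Set.mem_Iic]
  intro v
  have h1 : a v ≤ 2 * Q := by
    rw [← degree_of_mem_P ha]
    exact Finsupp.le_degree v a
  rw [Finsupp.finsetSum_apply]
  refine h1.trans ?_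
  have := Finset.single_le_sum (f := fun w => (single w (2 * Q)) v) (fun w _ => Nat.zero_le _)
    (Finset.mem_univ v)
  simpa using this

open Classical in
/-- the smallest independent set of maximal deficiency -/
noncomputable def Tm (G : SimpleGraph V) (c : V → ℕ) (m : V →₀ ℕ) : Finset V :=
  if h : ∃ T, Mx G c m T ∧ ∀ U, Mx G c m U → T ⊆ U then h.choose else ∅

theorem Tm_eq {G : SimpleGraph V} {c : V → ℕ} {m : V →₀ ℕ} {T : Finset V} (hT : Mx G c m T)
    (hTm : ∀ U, Mx G c m U → T ⊆ U) : Tm G c m = T := by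
  have h : ∃ T, Mx G c m T ∧ ∀ U, Mx G c m U → T ⊆ U := ⟨T, hT, hTm⟩
  unfold Tm
  rw [dif_pos h]
  exact Finset.Subset.antisymm (h.choose_spec.2 T hT) (hTm _ h.choose_spec.1)

/-- code of a block -/
noncomputable def cod : Finset V × (V →₀ ℕ) → ℕ :=
  (exists_injective_nat (Finset V × (V →₀ ℕ))).choose

theorem cod_inj : Function.Injective (cod (V := V)) :=
  (exists_injective_nat (Finset V × (V →₀ ℕ))).choose_spec

/-- the class of an element -/
noncomputable def kap (G : SimpleGraph V) (c : V → ℕ) (m : V →₀ ℕ) : ℕ ×ₗ (ℕ ×ₗ ℕ) :=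
  toLex (mxd G c m, toLex (Fintype.card V - (Tm G c m).card,
    cod (Tm G c m, m.filter (fun v => v ∈ nb G (Tm G c m)))))

/-- **Linear quotients of bounded families.** -/
theorem clq_caps {G : SimpleGraph V} (hG : GF G) {Q : ℕ} {c : V → ℕ}
    (hc : ∀ T, Ind G T → ws c T ≤ Q) : CLQ {m | m ∈ P G Q ∧ ∀ v, m v ≤ c v} := by
  classical
  refine clq_of_classes ((P_finite G Q).subset (fun m hm => hm.1)) (kap G c) ?_
  rintro a ⟨ha, hac⟩ b ⟨hb, hbc⟩ hκ
  obtain ⟨T, hT, hTm⟩ := exists_Tmin hG hc ha hac
  have hTa := Tm_eq hT hTm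
  by_cases hz : ∃ z ∈ nb G T, a z < b z
  · left
    obtain ⟨z, hz, hlt⟩ := hz
    obtain ⟨s, a', h1, h2, h3, h4⟩ := step1 hG hc ha hac hT hTm hz (lt_of_lt_of_le hlt (hbc z))
    exact ⟨z, s, a', hlt, ⟨h1, h3⟩, h2, Prod.Lex.toLex_lt_toLex.2 (Or.inl h4)⟩
  · right
    push Not at hz
    have h1 : ws b (nb G T) ≤ ws a (nb G T) := ws_mono hz
    have h2 : (mxd G c a : ℤ) ≤ dl G c b T := by
      rw [← hT.2]
      unfold dl
      omega
    have h3 := dl_le_mxd (c := c) (m := b) hT.1
    have hκ' : mxd G c b ≤ mxd G c a := by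
      rcases Prod.Lex.toLex_le_toLex.1 hκ with h4 | h4
      · exact h4.le
      · exact h4.1.le
    have heq : mxd G c b = mxd G c a := by omega
    have hTb : Mx G c b T := ⟨hT.1, by omega⟩
    have hA : ∀ v ∈ nb G T, b v = a v := by
      have h5 : ws b (nb G T) = ws a (nb G T) := by
        have h6 := hT.2
        have h7 := hTb.2
        unfold dl at h6 h7
        omega
      intro v hv
      by_contra hne
      have h6 := ws_lt hz hv (lt_of_le_of_ne (hz v hv) hne)
      omega
    have hTmb : Tm G c b = T := by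
      obtain ⟨T', hT', hTm'⟩ := exists_Tmin hG hc hb hbc
      have h5 := Tm_eq hT' hTm'
      rcases Prod.Lex.toLex_le_toLex.1 hκ with h4 | h4
      · exact absurd h4 (by simp only [heq, lt_irrefl, not_false_eq_true])
      · have h6 : Fintype.card V - (Tm G c b).card ≤ Fintype.card V - (Tm G c a).card := by
          rcases Prod.Lex.toLex_le_toLex.1 h4.2 with h7 | h7
          · exact h7.le
          · exact h7.1.le
        rw [hTa] at h6
        rw [h5] at h6 ⊢
        have h7 := Finset.card_le_univ T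
        have h8 := Finset.card_le_univ T'
        exact Finset.eq_of_subset_of_card_le (hTm' T hTb) (by omega)
    have hfil : ∀ {a' : V →₀ ℕ}, (∀ v ∈ nb G T, a' v = a v) →
        a'.filter (fun v => v ∈ nb G T) = a.filter (fun v => v ∈ nb G T) := by
      intro a' h
      refine Finsupp.ext (fun v => ?_)
      rw [Finsupp.filter_apply, Finsupp.filter_apply]
      split_ifs with hv
      · exact h v hv
      · rfl
    refine ⟨?_, ?_⟩
    · unfold kap
      rw [heq, hTmb, hTa, hfil hA]
    · intro t ht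
      obtain ⟨s, m2, k1, k2, k3, k4, k5, k6, k7, k8⟩ :=
        block_ex hG hc ha hac hb hbc hT hTm heq hA ht
      refine ⟨s, m2, k1, ⟨k2, k4⟩, k3, ?_⟩
      unfold kap
      rw [k5, Tm_eq k6 k7, hTa, hfil k8]

end Pool.Agent.LQ.T1
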