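import Pool.Agent.Helper75.LQ.Stage

/-!
# MP_e2a5d3_al : weights of sets of vertices and neighbourhoods
-/

set_option linter.unusedSectionVars false

namespace Pool.Agent.LQ.T1

open Finsupp

variable {V : Type*} [Fintype V] [DecidableEq V]

/-- total weight of a set of vertices -/
def ws (m : V → ℕ) (S : Finset V) : ℕ := ∑ v ∈ S, m v

open Classical in
/-- neighbourhood of a set of vertices -/
noncomputable def nb (G : SimpleGraph V) (T : Finset V) : Finset V :=
  Finset.univ.filter (fun v => ∃ t ∈ T, G.Adj t v)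

theorem mem_nb {G : SimpleGraph V} {T : Finset V} {v : V} : v ∈ nb G T ↔ ∃ t ∈ T, G.Adj t v := by
  simp [nb]

theorem not_mem_nb {G : SimpleGraph V} {T : Finset V} {v : V} (h : v ∉ nb G T) {t : V}
    (ht : t ∈ T) : ¬ G.Adj t v := fun h' => h (mem_nb.2 ⟨t, ht, h'⟩)

theorem nb_mono {G : SimpleGraph V} {T U : Finset V} (h : T ⊆ U) : nb G T ⊆ nb G U := by
  intro v hv
  obtain ⟨t, ht, h'⟩ := mem_nb.1 hv
  exact mem_nb.2 ⟨t, h ht, h'⟩

theorem nb_union (G : SimpleGraph V) (T U : Finset V) : nb G (T ∪ U) = nb G T ∪ nb G U := by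
  ext v
  rw [Finset.mem_union, mem_nb, mem_nb, mem_nb]
  constructor
  · rintro ⟨t, ht, h⟩
    rcases Finset.mem_union.1 ht with ht | ht
    · exact Or.inl ⟨t, ht, h⟩
    · exact Or.inr ⟨t, ht, h⟩
  · rintro (⟨t, ht, h⟩ | ⟨t, ht, h⟩)
    · exact ⟨t, Finset.mem_union_left _ ht, h⟩
    · exact ⟨t, Finset.mem_union_right _ ht, h⟩

theorem nb_inter (G : SimpleGraph V) (T U : Finset V) : nb G (T ∩ U) ⊆ nb G T ∩ nb G U :=
  Finset.subset_inter (nb_mono Finset.inter_subset_left) (nb_mono Finset.inter_subset_right)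

theorem nb_empty (G : SimpleGraph V) : nb G ∅ = ∅ := by
  ext v
  rw [mem_nb]
  simp

theorem ws_mono_set (m : V → ℕ) {S T : Finset V} (h : S ⊆ T) : ws m S ≤ ws m T :=
  Finset.sum_le_sum_of_subset h

theorem ws_mono {m m' : V → ℕ} {S : Finset V} (h : ∀ v ∈ S, m v ≤ m' v) : ws m S ≤ ws m' S :=
  Finset.sum_le_sum h

theorem ws_lt {m m' : V → ℕ} {S : Finset V} (h : ∀ v ∈ S, m v ≤ m' v) {z : V} (hz : z ∈ S)
    (hlt : m z < m' z) : ws m S + 1 ≤ ws m' S :=
  Finset.sum_lt_sum h ⟨z, hz, hlt⟩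

theorem ws_union_inter (m : V → ℕ) (S T : Finset V) :
    ws m (S ∪ T) + ws m (S ∩ T) = ws m S + ws m T := Finset.sum_union_inter

theorem ws_sdiff_inter (m : V → ℕ) (S T : Finset V) :
    ws m (S \ T) + ws m (S ∩ T) = ws m S := by
  unfold ws
  rw [add_comm]
  exact Finset.sum_inter_add_sum_sdiff S T m

theorem ws_empty (m : V → ℕ) : ws m ∅ = 0 := Finset.sum_empty

theorem ws_add (m m' : V →₀ ℕ) (S : Finset V) : ws (⇑(m + m')) S = ws m S + ws m' S := by
  unfold ws
  rw [← Finset.sum_add_distrib]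
  rfl

theorem ws_δ_mem {S : Finset V} {x : V} (h : x ∈ S) : ws (⇑(δ x)) S = 1 := by
  unfold ws δ
  simp only [single_apply]
  rw [Finset.sum_ite_eq, if_pos h]

theorem ws_δ_not {S : Finset V} {x : V} (h : x ∉ S) : ws (⇑(δ x)) S = 0 := by
  unfold ws δ
  simp only [single_apply]
  rw [Finset.sum_ite_eq, if_neg h]

theorem ws_δ_le (S : Finset V) (x : V) : ws (⇑(δ x)) S ≤ 1 := by
  by_cases h : x ∈ S
  · rw [ws_δ_mem h]
  · rw [ws_δ_not h]; omega

theorem ws_univ (m : V →₀ ℕ) : ws m Finset.univ = m.degree := by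
  unfold ws
  rw [Finsupp.degree_eq_sum]

/-- an independent set of vertices -/
def Ind (G : SimpleGraph V) (T : Finset V) : Prop := ∀ x ∈ T, ∀ y ∈ T, ¬ G.Adj x y

theorem Ind.subset {G : SimpleGraph V} {T U : Finset V} (h : Ind G U) (hs : T ⊆ U) : Ind G T :=
  fun x hx y hy => h x (hs hx) y (hs hy)

theorem ind_empty (G : SimpleGraph V) : Ind G ∅ := fun x hx => absurd hx (Finset.notMem_empty x)

/-- no edges between the two sets -/
def Cp (G : SimpleGraph V) (T U : Finset V) : Prop := ∀ x ∈ T, ∀ y ∈ U, ¬ G.Adj x y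

theorem Cp.symm {G : SimpleGraph V} {T U : Finset V} (h : Cp G T U) : Cp G U T :=
  fun x hx y hy h' => h y hy x hx h'.symm

theorem Ind.union {G : SimpleGraph V} {T U : Finset V} (hT : Ind G T) (hU : Ind G U)
    (h : Cp G T U) : Ind G (T ∪ U) := by
  intro x hx y hy hxy
  rcases Finset.mem_union.1 hx with hx | hx <;> rcases Finset.mem_union.1 hy with hy | hy
  · exact hT x hx y hy hxy
  · exact h x hx y hy hxy
  · exact h y hy x hx hxy.symm
  · exact hU x hx y hy hxy

theorem Ind.nb_not {G : SimpleGraph V} {T : Finset V} (hT : Ind G T) {x : V} (hx : x ∈ T) :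
    x ∉ nb G T := fun h => by
  obtain ⟨t, ht, h'⟩ := mem_nb.1 h
  exact hT t ht x hx h'

/-- easy direction of the Hall criterion -/
theorem hall_easy {G : SimpleGraph V} {T : Finset V} (hT : Ind G T) :
    ∀ {q : ℕ} {m : V →₀ ℕ}, m ∈ P G q → ws m T ≤ ws m (nb G T)
  | 0, m, h => by
      have : m = 0 := h
      subst this
      simp [ws]
  | q + 1, m, h => by
      obtain ⟨Y, hY, a, b, hab, rfl⟩ := h
      have := hall_easy hT hY
      rw [show ev a b = δ a + δ b from rfl, ws_add, ws_add, ws_add, ws_add]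
      by_cases ha : a ∈ T
      · have hb : b ∈ nb G T := mem_nb.2 ⟨a, ha, hab⟩
        have hb' : b ∉ T := fun h => hT a ha b h hab
        rw [ws_δ_mem hb, ws_δ_not hb', ws_δ_mem ha]
        omega
      · rw [ws_δ_not ha]
        by_cases hb : b ∈ T
        · have ha' : a ∈ nb G T := mem_nb.2 ⟨b, hb, hab.symm⟩
          rw [ws_δ_mem ha', ws_δ_mem hb]
          omega
        · rw [ws_δ_not hb]
          omega

theorem ws_univ_P {G : SimpleGraph V} {q : ℕ} {m : V →₀ ℕ} (h : m ∈ P G q) :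
    ws m Finset.univ = 2 * q := by
  rw [ws_univ, degree_of_mem_P h]

/-- an edge of a matching avoiding a small set -/
theorem edge_avoid {G : SimpleGraph V} (S : Finset V) :
    ∀ {q : ℕ} {m : V →₀ ℕ}, m ∈ P G q → ws m S < q →
      ∃ q' m' a b, q = q' + 1 ∧ m' ∈ P G q' ∧ G.Adj a b ∧ m = m' + ev a b ∧ a ∉ S ∧ b ∉ S
  | 0, m, h, hlt => absurd hlt (Nat.not_lt_zero _)
  | q + 1, m, h, hlt => by
      obtain ⟨Y, hY, a, b, hab, rfl⟩ := h
      by_cases hc : a ∉ S ∧ b ∉ S
      · exact ⟨q, Y, a, b, rfl, hY, hab, rfl, hc.1, hc.2⟩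
      · have h1 : ws Y S < q := by
          rw [show ev a b = δ a + δ b from rfl, ws_add, ws_add] at hlt
          by_cases ha : a ∈ S
          · rw [ws_δ_mem ha] at hlt; omega
          · have hb : b ∈ S := by
              by_contra hb
              exact hc ⟨ha, hb⟩
            rw [ws_δ_mem hb] at hlt; omega
        obtain ⟨q', m', a', b', hq, hm', hab', rfl, ha', hb'⟩ := edge_avoid S hY h1
        refine ⟨q, m' + ev a b, a', b', rfl, ?_, hab', ?_, ha', hb'⟩
        · rw [hq]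
          exact ⟨m', hm', a, b, hab, rfl⟩
        · rw [add_right_comm]

end Pool.Agent.LQ.T1
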